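import Pool.Agent.LE.StmtsB
import Pool.Agent.Helper46_LE.Fvd

/-!
# GAM, deterministic part
-/

set_option autoImplicit false
set_option linter.unusedSectionVars false

open MeasureTheory ProbabilityTheory Function

open scoped ENNReal BigOperators

noncomputable section

namespace Pool.Agent.LE.H17B

open Pool.Agent.Anderson Pool.Agent.Loc Pool.Agent.Mob Pool.Agent.Helper54.Bal Pool.Agent.LE

variable {d : ℕ}

/-! ### geometry -/

theorem sd_sm (n : ℕ) (x : Site d) : sd 0 (sm n x) = n * sd 0 x := by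
  apply le_antisymm
  · rw [sd_le_iff]
    intro i
    have h1 := sd_le_iff.1 (le_refl (sd 0 x)) i
    simp only [sm, Pi.zero_apply, zero_sub, abs_neg, abs_mul, Nat.abs_cast] at h1 ⊢
    push_cast
    exact mul_le_mul_of_nonneg_left h1 (by positivity)
  · rcases Nat.eq_zero_or_pos n with rfl | hn
    · simp
    · have h0 : sd (0 : Site d) x ≤ sd 0 (sm n x) / n := by
        rw [sd_le_iff]
        intro i
        have h1 := sd_le_iff.1 (le_refl (sd 0 (sm n x))) i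
        simp only [sm, Pi.zero_apply, zero_sub, abs_neg, abs_mul, Nat.abs_cast] at h1 ⊢
        push_cast
        rw [Int.le_ediv_iff_mul_le (by exact_mod_cast hn)]
        linarith
      calc n * sd 0 x ≤ n * (sd 0 (sm n x) / n) := Nat.mul_le_mul_left _ h0
        _ ≤ sd 0 (sm n x) := Nat.mul_div_le _ _

theorem exists_near {ℓ Q L : ℕ} (hQ : 1 ≤ Q) (hL : ℓ = L / Q) (hℓ : Q + 1 ≤ ℓ) (u : Site d)
    (hu : sd 0 u = L ∨ sd 0 u = L + 1) :
    ∃ y ∈ box (0 : Site d) (Q + 2), sd (sm ℓ y) u ≤ ℓ ∧ Q ≤ sd 0 y + 1 := by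
  have hℓ0 : (0 : ℤ) < ℓ := by
    have : 0 < ℓ := by omega
    exact_mod_cast this
  have h1 : Q * ℓ ≤ L := by
    rw [hL]
    exact Nat.mul_div_le _ _
  have h2 : L < Q * ℓ + Q := by
    rw [hL]
    have := Nat.lt_mul_div_succ L (show 0 < Q by omega)
    rw [Nat.mul_succ] at this
    exact this
  refine ⟨fun j => u j / ℓ, ?_, ?_, ?_⟩
  · rw [mem_box, sd_le_iff]
    intro i
    have h3 := sd_le_iff.1 (le_refl (sd 0 u)) i
    simp only [Pi.zero_apply, zero_sub, abs_neg] at h3 ⊢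
    have h4 : (sd 0 u : ℤ) ≤ (Q + 1) * ℓ := by
      have h5 : sd 0 u ≤ (Q + 1) * ℓ := by
        have h6 : (Q + 1) * ℓ = Q * ℓ + ℓ := by ring
        rw [h6]
        rcases hu with hu | hu <;> omega
      exact_mod_cast h5
    have h5 := abs_le.1 (h3.trans h4)
    have h6 := Int.emod_add_mul_ediv (u i) ℓ
    have h7 := Int.emod_nonneg (u i) hℓ0.ne'
    have h8 := Int.emod_lt_of_pos (u i) hℓ0
    rw [abs_le]
    push_cast
    constructor
    · by_contra h9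
      rw [not_le] at h9
      have h10 : u i / ℓ ≤ -(Q + 2) - 1 := by linarith
      have h11 : (ℓ : ℤ) * (u i / ℓ) ≤ ℓ * (-(Q + 2) - 1) := mul_le_mul_of_nonneg_left h10 hℓ0.le
      nlinarith
    · by_contra h9
      rw [not_le] at h9
      have h10 : (Q : ℤ) + 2 ≤ u i / ℓ := by linarith
      have h11 : (ℓ : ℤ) * (Q + 2) ≤ ℓ * (u i / ℓ) := mul_le_mul_of_nonneg_left h10 hℓ0.le
      nlinarith
  · rw [sd_le_iff]
    intro i
    have h6 := Int.emod_add_mul_ediv (u i) ℓ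
    have h7 := Int.emod_nonneg (u i) hℓ0.ne'
    have h8 := Int.emod_lt_of_pos (u i) hℓ0
    simp only [sm]
    rw [abs_le]
    constructor <;> linarith
  · have h3 : sd (0 : Site d) (sm ℓ (fun j => u j / ℓ)) = ℓ * sd 0 (fun j => u j / ℓ) := sd_sm _ _
    have h4 : sd (sm ℓ (fun j => u j / (ℓ : ℤ))) u ≤ ℓ := by
      rw [sd_le_iff]
      intro i
      have h6 := Int.emod_add_mul_ediv (u i) ℓ
      have h7 := Int.emod_nonneg (u i) hℓ0.ne'
      have h8 := Int.emod_lt_of_pos (u i) hℓ0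
      simp only [sm]
      rw [abs_le]
      constructor <;> linarith
    have h5 := sd_triangle 0 (sm ℓ (fun j => u j / (ℓ : ℤ))) u
    rw [h3] at h5
    have h6 : Q * ℓ ≤ ℓ * sd 0 (fun j => u j / (ℓ : ℤ)) + ℓ := by
      rcases hu with hu | hu <;> omega
    have h7 : Q * ℓ ≤ (sd 0 (fun j => u j / (ℓ : ℤ)) + 1) * ℓ := by
      calc Q * ℓ ≤ _ := h6
        _ = (sd 0 (fun j => u j / (ℓ : ℤ)) + 1) * ℓ := by ring
    exact Nat.le_of_mul_le_mul_right h7 (by omega)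

/-! ### comparison of the cube with the infinite volume -/

theorem bd_pair {L : ℕ} {b b' : Site d} (hb : b ∈ box (0 : Site d) L)
    (hb' : b' ∈ box (0 : Site d) (L + 1) \ box 0 L) (hh : hop b b' ≠ 0) :
    sd 0 b = L ∧ sd 0 b' = L + 1 := by
  rw [Finset.mem_sdiff, mem_box, mem_box] at hb'
  rw [mem_box] at hb
  have h1 := sd_of_hop hh
  have h2 := sd_triangle 0 b b'
  omega

theorem card_real (L : ℕ) : ((box (0 : Site d) L).card : ℝ) = (2 * L + 1) ^ d := by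
  rw [card_box]
  push_cast
  ring

theorem gam_up {V : Site d → ℝ} {h : Site d → Site d → ℝ} {L : ℕ} {E T A : ℝ} (hT : 0 ≤ T)
    (hA : 0 ≤ A) (hgr : ∀ x y, |gr V (box 0 L) E x y| ≤ T) (hnn : ∀ x y, 0 ≤ h x y)
    (hcmp : ∀ u ∈ box (0 : Site d) L, |gr V (box 0 L) E 0 u| ≤ h 0 u +
      ∑ b ∈ box 0 L, ∑ b' ∈ box 0 (L + 1) \ box 0 L,
        h 0 b' * hop b b' * |gr V (box 0 L) E b u|)
    (hd : ∀ u : Site d, (sd 0 u = L ∨ sd 0 u = L + 1) → h 0 u ≤ A) (u : Site d)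
    (hu : sd 0 u = L) : |gr V (box 0 L) E 0 u| ≤ (1 + 2 * d * (2 * L + 1) ^ d * T) * A := by
  have h1 := hcmp u (mem_box.2 hu.le)
  have h2 : |∑ b ∈ box (0 : Site d) L, ∑ b' ∈ box 0 (L + 1) \ box 0 L,
      |gr V (box 0 L) E b u| * hop b b' * h 0 b'| ≤ 2 * d * (box (0 : Site d) L).card * (T * A) := by
    apply Pool.Agent.LE.H46.sum_bd (fun b => |gr V (box 0 L) E b u|) (fun b' => h 0 b')
      (mul_nonneg hT hA)
    intro b hb b' hb' hh
    obtain ⟨_, h4⟩ := bd_pair hb hb' hh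
    rw [abs_abs, abs_of_nonneg (hnn 0 b')]
    exact mul_le_mul (hgr b u) (hd b' (Or.inr h4)) (hnn _ _) hT
  have h3 : ∑ b ∈ box (0 : Site d) L, ∑ b' ∈ box 0 (L + 1) \ box 0 L,
      h 0 b' * hop b b' * |gr V (box 0 L) E b u| =
      ∑ b ∈ box (0 : Site d) L, ∑ b' ∈ box 0 (L + 1) \ box 0 L,
      |gr V (box 0 L) E b u| * hop b b' * h 0 b' := by
    refine Finset.sum_congr rfl fun b _ => Finset.sum_congr rfl fun b' _ => ?_
    ring
  rw [h3] at h1
  rw [card_real] at h2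
  have h4 := hd u (Or.inl hu)
  have h5 := le_abs_self (∑ b ∈ box (0 : Site d) L, ∑ b' ∈ box 0 (L + 1) \ box 0 L,
      |gr V (box 0 L) E b u| * hop b b' * h 0 b')
  have h6 : (1 + 2 * (d : ℝ) * (2 * L + 1) ^ d * T) * A =
      A + 2 * d * (2 * L + 1) ^ d * (T * A) := by ring
  rw [h6]
  linarith

theorem gam_low {V : Site d → ℝ} {h : Site d → Site d → ℝ} {L : ℕ} {E T B : ℝ}
    (hB : 0 ≤ B) (w : Site d) (hw : w ∉ box (0 : Site d) L)
    (hcmp : h 0 w ≤ |gr V (box 0 L) E 0 w| +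
      ∑ b ∈ box 0 L, ∑ b' ∈ box 0 (L + 1) \ box 0 L,
        |gr V (box 0 L) E 0 b| * hop b b' * h b' w)
    (hnn : ∀ x y, 0 ≤ h x y) (hb : ∀ u : Site d, sd 0 u = L → |gr V (box 0 L) E 0 u| ≤ B)
    (hT : ∀ b' ∈ box (0 : Site d) (L + 1), h b' w ≤ T) :
    h 0 w ≤ 2 * d * (2 * L + 1) ^ d * (B * T) := by
  have h0 : gr V (box 0 L) E 0 w = 0 := by
    unfold gr
    rw [dif_neg (fun h => hw h.2)]
  have hT0 : 0 ≤ T := (hnn 0 w).trans (hT 0 (mem_box.2 (by rw [sd_self]; omega)))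
  rw [h0, abs_zero, zero_add] at hcmp
  have h2 : |∑ b ∈ box (0 : Site d) L, ∑ b' ∈ box 0 (L + 1) \ box 0 L,
      |gr V (box 0 L) E 0 b| * hop b b' * h b' w| ≤ 2 * d * (box (0 : Site d) L).card * (B * T) := by
    apply Pool.Agent.LE.H46.sum_bd (fun b => |gr V (box 0 L) E 0 b|) (fun b' => h b' w)
      (mul_nonneg hB hT0)
    intro b hb1 b' hb' hh
    obtain ⟨h3, _⟩ := bd_pair hb1 hb' hh
    rw [abs_abs, abs_of_nonneg (hnn b' w)]
    exact mul_le_mul (hb b h3) (hT b' (Finset.mem_sdiff.1 hb').1) (hnn _ _) hB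
  rw [card_real] at h2
  exact hcmp.trans ((le_abs_self _).trans h2)

end Pool.Agent.LE.H17B
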