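import Pool.Agent.Helper17_LE.GamDet

/-!
# GAM, the typical realizations: deterministic consequences
-/

set_option autoImplicit false
set_option linter.unusedSectionVars false

open MeasureTheory ProbabilityTheory Function

open scoped ENNReal BigOperators

noncomputable section

namespace Pool.Agent.LE.H17B

open Pool.Agent.Anderson Pool.Agent.Loc Pool.Agent.Mob Pool.Agent.Helper54.Bal Pool.Agent.LE

variable {d : ℕ}

/-- the properties which hold almost surely -/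
structure Ae0 (V : Site d → ℝ) (E : ℝ) (L : ℕ) (h : Site d → Site d → ℝ) : Prop where
  pos : ∀ x y, 0 < h x y
  symm : ∀ x y, h x y = h y x
  cmp1 : (RM V (box 0 L) E).det ≠ 0 → ∀ u : Site d,
    h 0 u ≤ |gr V (box 0 L) E 0 u| + ∑ b ∈ box 0 L, ∑ b' ∈ box 0 (L + 1) \ box 0 L,
      |gr V (box 0 L) E 0 b| * hop b b' * h b' u
  cmp2 : (RM V (box 0 L) E).det ≠ 0 → ∀ u ∈ box (0 : Site d) L,
    |gr V (box 0 L) E 0 u| ≤ h 0 u + ∑ b ∈ box 0 L, ∑ b' ∈ box 0 (L + 1) \ box 0 L,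
      h 0 b' * hop b b' * |gr V (box 0 L) E b u|

/-- the properties with probability near one -/
structure Pr0 (V : Site d → ℝ) (E κ : ℝ) (L Q R : ℕ) (x₀ : Site d) (μ : Site d → ℝ)
    (h : Site d → Site d → ℝ) : Prop where
  det : (RM V (box 0 L) E).det ≠ 0
  grb : ∀ x y, |gr V (box 0 L) E x y| ≤ Real.exp (κ * L)
  up : ∀ x ∈ box (0 : Site d) (L + R), ∀ y ∈ box (0 : Site d) (L + R), h x y ≤ Real.exp (κ * L)
  tri : ∀ u ∈ box (0 : Site d) (L + 1), ∀ y ∈ box (0 : Site d) (Q + 2),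
    h 0 u * h u (sm (L / Q) y) ≤ Real.exp (κ * L) * h 0 (sm (L / Q) y)
  chn : ∀ y ∈ box (0 : Site d) (Q + 2), ∀ u ∈ box (sm (L / Q) y) (L / Q),
    Real.exp (-(κ * L)) ≤ h (sm (L / Q) y) u
  lln : ∀ y ∈ box (0 : Site d) (Q + 2),
    |-Real.log (h 0 (sm (L / Q) y)) / (L / Q : ℕ) - μ y| ≤ κ
  lln0 : |-Real.log (h 0 (sm (L / R + 1) x₀)) / (L / R + 1 : ℕ) - μ x₀| ≤ κ

theorem exp_low {a m q κ : ℝ} (ha : 0 < a) (hm : 0 < m) (h : |-Real.log a / m - q| ≤ κ) :
    a ≤ Real.exp (-(m * (q - κ))) ∧ Real.exp (-(m * (q + κ))) ≤ a := by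
  have h1 := abs_le.1 h
  have h2 : -Real.log a / m * m = -Real.log a := by field_simp
  constructor
  · have h3 : (q - κ) * m ≤ -Real.log a / m * m :=
      mul_le_mul_of_nonneg_right (by linarith) hm.le
    rw [h2] at h3
    calc a = Real.exp (Real.log a) := (Real.exp_log ha).symm
      _ ≤ _ := Real.exp_le_exp.2 (by linarith)
  · have h3 : -Real.log a / m * m ≤ (q + κ) * m :=
      mul_le_mul_of_nonneg_right (by linarith) hm.le
    rw [h2] at h3
    calc Real.exp (-(m * (q + κ))) ≤ Real.exp (Real.log a) := Real.exp_le_exp.2 (by linarith)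
      _ = a := Real.exp_log ha

theorem gam_det {V : Site d → ℝ} {E κ γ : ℝ} {L Q R : ℕ} {x₀ : Site d} {μ : Site d → ℝ}
    {h : Site d → Site d → ℝ} (ha : Ae0 V E L h) (hp : Pr0 V E κ L Q R x₀ μ h) (hκ : 0 < κ)
    (hγ : 0 ≤ γ) (hQ : 1 ≤ Q) (hγQ : γ ≤ κ * Q) (hℓ : Q + 1 ≤ L / Q) (hγL : γ * Q ≤ κ * L)
    (hN : 1 + 2 * d * (2 * (L : ℝ) + 1) ^ d ≤ Real.exp (κ * L)) (hR : sd 0 x₀ = R) (hR1 : 1 ≤ R)
    (hRL : (γ + κ) * R + κ ≤ κ * L) (hμ : ∀ x, γ * sd 0 x ≤ μ x) (hμ0 : μ x₀ ≤ (γ + κ) * R) :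
    (∀ u : Site d, sd 0 u = L → |gr V (box 0 L) E 0 u| ≤ Real.exp (-(γ - 8 * κ) * L)) ∧
      ∃ u : Site d, sd 0 u = L ∧ Real.exp (-(γ + 8 * κ) * L) ≤ |gr V (box 0 L) E 0 u| := by
  obtain ⟨ℓ, hℓd⟩ : ∃ ℓ, ℓ = L / Q := ⟨_, rfl⟩
  have hQr : (1 : ℝ) ≤ Q := by exact_mod_cast hQ
  have h1 : Q * ℓ ≤ L := by
    rw [hℓd]
    exact Nat.mul_div_le _ _
  have h2 : L ≤ Q * ℓ + Q := by
    rw [hℓd]
    have := Nat.lt_mul_div_succ L (show 0 < Q by omega)
    rw [Nat.mul_succ] at this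
    exact this.le
  have h1r : (Q : ℝ) * ℓ ≤ L := by exact_mod_cast h1
  have h2r : (L : ℝ) ≤ Q * ℓ + Q := by exact_mod_cast h2
  have hℓ1 : 1 ≤ ℓ := by omega
  have hℓr : (1 : ℝ) ≤ ℓ := by exact_mod_cast hℓ1
  have hℓL : (ℓ : ℝ) ≤ L := by nlinarith
  have hLr : (1 : ℝ) ≤ L := hℓr.trans hℓL
  have hκL : 0 < κ * L := by positivity
  have hpoly : 0 ≤ 2 * (d : ℝ) * (2 * L + 1) ^ d := by positivity
  have hT : 0 < Real.exp (κ * L) := Real.exp_pos _
  have hT1 : 1 ≤ Real.exp (κ * L) := Real.one_le_exp hκL.le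
  -- the lower bound of the distance
  have hdist : ∀ u : Site d, (sd 0 u = L ∨ sd 0 u = L + 1) →
      h 0 u ≤ Real.exp (-(γ - 5 * κ) * L) := by
    intro u hu
    obtain ⟨y, hy, hyu, hyQ⟩ := exists_near hQ hℓd (by rw [hℓd]; exact hℓ) u hu
    have hub : u ∈ box (0 : Site d) (L + 1) := by
      rw [mem_box]
      omega
    have t1 := hp.tri u hub y hy
    have t2 := hp.chn y hy u (by rw [← hℓd]; exact mem_box.2 hyu)
    have t3 := (exp_low (ha.pos 0 (sm (L / Q) y)) (by rw [← hℓd]; linarith) (hp.lln y hy)).1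
    rw [← hℓd] at t1 t2 t3
    rw [ha.symm (sm ℓ y) u] at t2
    have t4 := hμ y
    have t5 : (Q : ℝ) ≤ sd 0 y + 1 := by exact_mod_cast hyQ
    have hpos := ha.pos 0 u
    have e1 : h 0 u * Real.exp (-(κ * L)) ≤
        Real.exp (κ * L) * Real.exp (-(ℓ * (μ y - κ))) := by
      calc h 0 u * Real.exp (-(κ * L)) ≤ h 0 u * h u (sm ℓ y) :=
            mul_le_mul_of_nonneg_left t2 hpos.le
        _ ≤ Real.exp (κ * L) * h 0 (sm ℓ y) := t1
        _ ≤ _ := mul_le_mul_of_nonneg_left t3 hT.le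
    have e2 : h 0 u = h 0 u * Real.exp (-(κ * L)) * Real.exp (κ * L) := by
      rw [mul_assoc, ← Real.exp_add]
      simp
    rw [e2]
    calc h 0 u * Real.exp (-(κ * L)) * Real.exp (κ * L)
        ≤ Real.exp (κ * L) * Real.exp (-(ℓ * (μ y - κ))) * Real.exp (κ * L) :=
          mul_le_mul_of_nonneg_right e1 hT.le
      _ = Real.exp (κ * L + -(ℓ * (μ y - κ)) + κ * L) := by rw [Real.exp_add, Real.exp_add]
      _ ≤ Real.exp (-(γ - 5 * κ) * L) := by
          rw [Real.exp_le_exp]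
          have f1 : (ℓ : ℝ) * (γ * (Q - 1)) ≤ ℓ * μ y := by
            apply mul_le_mul_of_nonneg_left _ (by linarith)
            exact (mul_le_mul_of_nonneg_left (by linarith) hγ).trans t4
          have f2 : γ * ℓ ≤ κ * L := by
            calc γ * ℓ ≤ κ * Q * ℓ := mul_le_mul_of_nonneg_right hγQ (by linarith)
              _ = κ * (Q * ℓ) := by ring
              _ ≤ κ * L := mul_le_mul_of_nonneg_left h1r hκ.le
          have f3 : γ * L ≤ γ * (Q * ℓ) + γ * Q := by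
            calc γ * L ≤ γ * (Q * ℓ + Q) := mul_le_mul_of_nonneg_left h2r hγ
              _ = _ := by ring
          have f4 : κ * ℓ ≤ κ * L := mul_le_mul_of_nonneg_left hℓL hκ.le
          have f5 : (ℓ : ℝ) * (γ * (Q - 1)) = γ * (Q * ℓ) - γ * ℓ := by ring
          have f6 : (ℓ : ℝ) * (μ y - κ) = ℓ * μ y - κ * ℓ := by ring
          rw [f6]
          linarith
  constructor
  · intro u hu
    have g1 := gam_up (h := h) hT.le (Real.exp_pos _).le hp.grb (fun x y => (ha.pos x y).le)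
      (ha.cmp2 hp.det) hdist u hu
    refine g1.trans ?_
    have g2 : 1 + 2 * (d : ℝ) * (2 * L + 1) ^ d * Real.exp (κ * L) ≤
        Real.exp (κ * L) * Real.exp (κ * L) := by
      calc 1 + 2 * (d : ℝ) * (2 * L + 1) ^ d * Real.exp (κ * L)
          ≤ Real.exp (κ * L) + 2 * (d : ℝ) * (2 * L + 1) ^ d * Real.exp (κ * L) := by linarith
        _ = (1 + 2 * (d : ℝ) * (2 * L + 1) ^ d) * Real.exp (κ * L) := by ring
        _ ≤ _ := mul_le_mul_of_nonneg_right hN hT.le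
    calc (1 + 2 * (d : ℝ) * (2 * L + 1) ^ d * Real.exp (κ * L)) * Real.exp (-(γ - 5 * κ) * L)
        ≤ Real.exp (κ * L) * Real.exp (κ * L) * Real.exp (-(γ - 5 * κ) * L) :=
          mul_le_mul_of_nonneg_right g2 (Real.exp_pos _).le
      _ = Real.exp (κ * L + κ * L + -(γ - 5 * κ) * L) := by rw [Real.exp_add, Real.exp_add]
      _ ≤ Real.exp (-(γ - 8 * κ) * L) := by
          rw [Real.exp_le_exp]
          nlinarith
  · by_contra hcon
    push Not at hcon
    obtain ⟨n, hn⟩ : ∃ n, n = L / R + 1 := ⟨_, rfl⟩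
    have hRpos : 0 < R := by omega
    have k1 : L < R * n := by
      rw [hn]
      exact Nat.lt_mul_div_succ L hRpos
    have k2 : R * n ≤ L + R := by
      rw [hn, Nat.mul_add, Nat.mul_one]
      exact Nat.add_le_add_right (Nat.mul_div_le _ _) _
    have k3 : n ≤ L + 1 := by
      rw [hn]
      exact Nat.add_le_add_right (Nat.div_le_self _ _) _
    have k2r : (R : ℝ) * n ≤ L + R := by exact_mod_cast k2
    have k3r : (n : ℝ) ≤ L + 1 := by exact_mod_cast k3
    have hn0 : (0 : ℝ) < n := by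
      have : 0 < n := by
        rw [hn]
        exact Nat.succ_pos _
      exact_mod_cast this
    have hwd : sd 0 (sm n x₀) = R * n := by rw [sd_sm, hR, mul_comm]
    have hw : sm n x₀ ∉ box (0 : Site d) L := by
      rw [mem_box, hwd]
      omega
    have hw2 : sm n x₀ ∈ box (0 : Site d) (L + R) := by
      rw [mem_box, hwd]
      exact k2
    have l0 := hp.lln0
    rw [← hn] at l0
    have l1 := (exp_low (ha.pos 0 (sm n x₀)) hn0 l0).2
    have l2 := gam_low (h := h) (T := Real.exp (κ * L)) (Real.exp_pos (-(γ + 8 * κ) * L)).le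
      (sm n x₀) hw (ha.cmp1 hp.det _) (fun x y => (ha.pos x y).le) (fun u hu => (hcon u hu).le)
      (fun b' hb' => hp.up b' (box_mono 0 (by omega) hb') _ hw2)
    have l3 : Real.exp (-(γ + 3 * κ) * L) ≤ Real.exp (-(n * (μ x₀ + κ))) := by
      rw [Real.exp_le_exp]
      have m1 : (n : ℝ) * μ x₀ ≤ (γ + κ) * (L + R) := by
        calc (n : ℝ) * μ x₀ ≤ n * ((γ + κ) * R) := mul_le_mul_of_nonneg_left hμ0 hn0.le
          _ = (γ + κ) * (R * n) := by ring
          _ ≤ (γ + κ) * (L + R) := mul_le_mul_of_nonneg_left k2r (by linarith)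
      have m2 : (n : ℝ) * κ ≤ κ * L + κ := by nlinarith
      have m3 : (γ + κ) * ((L : ℝ) + R) = γ * L + κ * L + (γ + κ) * R := by ring
      have m4 : (n : ℝ) * (μ x₀ + κ) = n * μ x₀ + n * κ := by ring
      rw [m4]
      linarith
    have l4 : 2 * (d : ℝ) * (2 * L + 1) ^ d *
        (Real.exp (-(γ + 8 * κ) * L) * Real.exp (κ * L)) ≤ Real.exp (-(γ + 6 * κ) * L) := by
      calc 2 * (d : ℝ) * (2 * L + 1) ^ d * (Real.exp (-(γ + 8 * κ) * L) * Real.exp (κ * L))
          ≤ Real.exp (κ * L) * (Real.exp (-(γ + 8 * κ) * L) * Real.exp (κ * L)) :=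
            mul_le_mul_of_nonneg_right (by linarith) (by positivity)
        _ = Real.exp (κ * L + (-(γ + 8 * κ) * L + κ * L)) := by
            rw [Real.exp_add, Real.exp_add]
        _ = Real.exp (-(γ + 6 * κ) * L) := by
            congr 1
            ring
    have l5 : Real.exp (-(γ + 3 * κ) * L) ≤ Real.exp (-(γ + 6 * κ) * L) :=
      l3.trans (l1.trans (l2.trans l4))
    rw [Real.exp_le_exp] at l5
    nlinarith

end Pool.Agent.LE.H17B
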