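import Pool.Agent.Helper17_LE.GamNum
import Pool.Agent.Helper96_EXP.Cvr
import Pool.Agent.Helper75_Mob.Transfer
import Pool.Agent.Helper54_Ballistic.Law

/-!
# GAM, the probability of the typical realizations
-/

set_option autoImplicit false
set_option linter.unusedSectionVars false

open MeasureTheory ProbabilityTheory Function Filter

open scoped ENNReal BigOperators

noncomputable section

namespace Pool.Agent.LE.H17B

open Pool.Agent.Anderson Pool.Agent.Loc Pool.Agent.Mob Pool.Agent.Helper54.Bal Pool.Agent.LE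
  Pool.Agent.LE.H96

variable {d : ℕ}

theorem markov {Ω : Type*} [MeasurableSpace Ω] (P : Measure Ω) [IsProbabilityMeasure P] {f : Ω → ℝ}
    (hf : Integrable f P) (hf0 : ∀ ω, 0 ≤ f ω) {κ q : ℝ} (hκ : 0 < κ)
    (h : ∫ ω, f ω ∂P ≤ κ * q) : P {ω | κ < f ω} ≤ ENNReal.ofReal q := by
  have h1 := mul_meas_ge_le_integral_of_nonneg (Filter.Eventually.of_forall hf0) hf κ
  have h2 : P.real {ω | κ ≤ f ω} ≤ q := by
    have h3 : κ * P.real {ω | κ ≤ f ω} ≤ κ * q := h1.trans h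
    exact le_of_mul_le_mul_left h3 hκ
  have h4 : {ω | κ < f ω} ⊆ {ω | κ ≤ f ω} := by
    intro ω hω
    rw [Set.mem_ofPred_eq] at hω ⊢
    exact hω.le
  calc P {ω | κ < f ω} ≤ P {ω | κ ≤ f ω} := measure_mono h4
    _ = ENNReal.ofReal (P.real {ω | κ ≤ f ω}) := (ofReal_measureReal).symm
    _ ≤ _ := ENNReal.ofReal_le_ofReal h2

theorem int_lln {P : Measure (Cfg d)} [IsProbabilityMeasure P] {C : ℝ}
    {h : Cfg d → Site d → Site d → ℝ} (hG : ApG d P C h) (x y : Site d) (n m : ℝ) :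
    Integrable (fun V => |-Real.log (h V x y) / n - m|) P := by
  have h1 : Integrable (fun V => Real.log (h V x y)) P := by
    have h2 := (hG.sq x y).1
    refine Integrable.mono' (h2.add (integrable_const (1 : ℝ)))
      (Real.measurable_log.comp (hG.meas x y)).aestronglyMeasurable (Filter.Eventually.of_forall ?_)
    intro V
    simp only [Pi.add_apply, Real.norm_eq_abs]
    nlinarith [sq_nonneg (|Real.log (h V x y)| - 1), sq_abs (Real.log (h V x y)),
      abs_nonneg (Real.log (h V x y))]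
  exact ((h1.neg.div_const n).sub (integrable_const m)).abs

theorem lln_pt {P : Measure (Cfg d)} [IsProbabilityMeasure P] {C : ℝ}
    {h : Cfg d → Site d → Site d → ℝ} (hG : ApG d P C h) {μ : Site d → ℝ} {x : Site d}
    (hlim : Tendsto (fun n : ℕ => ∫ V, |-Real.log (h V 0 (sm n x)) / n - μ x| ∂P) atTop (nhds 0))
    {κ q : ℝ} (hκ : 0 < κ) (hq : 0 < q) :
    ∀ᶠ n : ℕ in atTop, P {V | κ < |-Real.log (h V 0 (sm n x)) / n - μ x|} ≤ ENNReal.ofReal q := by
  filter_upwards [hlim.eventually (eventually_lt_nhds (show (0 : ℝ) < κ * q by positivity))]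
    with n hn
  exact markov P (int_lln hG 0 (sm n x) n (μ x)) (fun _ => abs_nonneg _) hκ hn.le

theorem box_card_real (L : ℕ) (a : Site d) : ((box a L).card : ℝ) = (2 * L + 1) ^ d := by
  rw [card_box]
  push_cast
  ring

theorem up_box {P : Measure (Cfg d)} [IsProbabilityMeasure P] {C : ℝ}
    {h : Cfg d → Site d → Site d → ℝ} (hG : ApG d P C h) (R : ℕ)
    {κ q : ℝ} (hκ : 0 < κ) (hq : 0 < q) :
    ∀ᶠ L : ℕ in atTop, P (⋃ z ∈ box (0 : Site d) (L + R) ×ˢ box (0 : Site d) (L + R),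
      {V | Real.exp (κ * L) < h V z.1 z.2}) ≤ ENNReal.ofReal q := by
  filter_upwards [poly_small (2 * d) (μ := κ / 2) (by positivity) (2 * R + 1) C hq] with L hL
  apply union_le (q := C * Real.exp (-(κ / 2) * L))
  · intro z _
    refine (hG.up z.1 z.2 _ (Real.exp_pos _)).trans (ENNReal.ofReal_le_ofReal (le_of_eq ?_))
    rw [Real.sqrt_eq_iff_mul_self_eq_of_pos (Real.exp_pos (κ / 2 * L)) |>.2, div_eq_mul_inv, ← Real.exp_neg]
    · ring_nf
    · rw [← Real.exp_add]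
      ring_nf
  · refine le_trans (le_of_eq ?_) hL
    rw [Finset.card_product]
    push_cast
    rw [box_card_real]
    push_cast
    ring

theorem tri_box {P : Measure (Cfg d)} [IsProbabilityMeasure P] {C : ℝ} (hC : 0 < C)
    {h : Cfg d → Site d → Site d → ℝ} (hG : ApG d P C h) (Q : ℕ)
    {κ q : ℝ} (hκ : 0 < κ) (hq : 0 < q) :
    ∀ᶠ L : ℕ in atTop, P (⋃ z ∈ box (0 : Site d) (L + 1) ×ˢ box (0 : Site d) (Q + 2),
      {V | Real.exp (κ * L) * h V 0 (sm (L / Q) z.2) <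
        h V 0 z.1 * h V z.1 (sm (L / Q) z.2)}) ≤ ENNReal.ofReal q := by
  filter_upwards [poly_small d (μ := κ) hκ 3 ((2 * (Q + 2) + 1) ^ d * C) hq] with L hL
  apply union_le (q := C * Real.exp (-κ * L))
  · intro z _
    refine (hG.one 0 z.1 (sm (L / Q) z.2) _ (Real.exp_pos _)).trans
      (ENNReal.ofReal_le_ofReal (le_of_eq ?_))
    rw [div_eq_mul_inv, ← Real.exp_neg]
    ring_nf
  · refine le_trans (le_of_eq ?_) hL
    rw [Finset.card_product]
    push_cast
    rw [box_card_real, box_card_real]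
    push_cast
    ring

theorem grb_box {σ : ℝ} (hσ : σ ≠ 0) (E : ℝ) {κ q : ℝ} (hκ : 0 < κ) (hq : 0 < q) :
    ∀ᶠ L : ℕ in atTop, PP d (gl σ) (⋃ z ∈ box (0 : Site d) L ×ˢ box (0 : Site d) L,
      {V | Real.exp (κ * L) < |gr V (box 0 L) E z.1 z.2|}) ≤ ENNReal.ofReal q := by
  have hν := bddDens_gl hσ
  filter_upwards [poly_small (2 * d) (μ := κ) hκ 1 (6 * (1 / |σ|)) hq] with L hL
  apply union_le (q := 6 * (1 / |σ|) * Real.exp (-κ * L))
  · intro z _
    have h1 : Pool.Agent.Mob.H75.Loc {V : Site d → ℝ |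
        Real.exp (κ * L) < |gr V (box 0 L) E z.1 z.2|} (box 0 L) := by
      intro V V' h
      rw [Set.mem_ofPred_eq, Set.mem_ofPred_eq, gr_congr h]
    refine ((Pool.Agent.Mob.H75.PP_le_PL h1).trans (PL_weak hν _ E z.1 z.2
      (Real.exp_pos _))).trans (ENNReal.ofReal_le_ofReal (le_of_eq ?_))
    rw [div_eq_mul_inv, ← Real.exp_neg]
    ring_nf
  · refine le_trans (le_of_eq ?_) hL
    rw [Finset.card_product]
    push_cast
    rw [box_card_real]
    ring

theorem det_null {σ : ℝ} (hσ : σ ≠ 0) (E : ℝ) (Λ : Finset (Site d)) :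
    PP d (gl σ) {V | (RM V Λ E).det = 0} = 0 := by
  have h1 : Pool.Agent.Mob.H75.Loc {V : Site d → ℝ | (RM V Λ E).det = 0} Λ := by
    intro V V' h
    rw [Set.mem_ofPred_eq, Set.mem_ofPred_eq, RM_congr h]
  exact le_antisymm ((Pool.Agent.Mob.H75.PP_le_PL h1).trans
    (PL_det (bddDens_gl hσ) _ _ le_rfl E).le) zero_le

theorem chn_box {P : Measure (Cfg d)} [IsProbabilityMeasure P] {C : ℝ} (hC : 0 < C)
    {h : Cfg d → Site d → Site d → ℝ} (hG : ApG d P C h) {Q L : ℕ} (hQ : 1 ≤ Q)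
    (hL : 1 ≤ L / Q) {κ q : ℝ} (hκ : 0 < κ)
    (hq : (2 * ((Q : ℝ) + 2) + 1) ^ d * (C * (1 / (κ * Q)) ^ (4 * d)) ≤ q) :
    P (⋃ y ∈ box (0 : Site d) (Q + 2), {V | ∃ u ∈ box (sm (L / Q) y) (L / Q),
      h V (sm (L / Q) y) u < Real.exp (-(κ * L))}) ≤ ENNReal.ofReal q := by
  have h1 : Q * (L / Q) ≤ L := Nat.mul_div_le _ _
  have h1r : (Q : ℝ) * (L / Q : ℕ) ≤ L := by exact_mod_cast h1
  have hLr : (1 : ℝ) ≤ (L / Q : ℕ) := by exact_mod_cast hL
  have hQr : (1 : ℝ) ≤ Q := by exact_mod_cast hQ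
  have hL0 : (0 : ℝ) < L := by nlinarith
  apply union_le (q := C * (1 / (κ * Q)) ^ (4 * d))
  · intro y _
    refine (hG.chn (sm (L / Q) y) (L / Q) (κ * L) hL (by positivity)).trans
      (ENNReal.ofReal_le_ofReal (mul_le_mul_of_nonneg_left (pow_le_pow_left₀ (by positivity) ?_ _)
        hC.le))
    rw [div_le_div_iff₀ (by positivity) (by positivity)]
    calc ((L / Q : ℕ) : ℝ) * (κ * Q) = κ * (Q * (L / Q : ℕ)) := by ring
      _ ≤ κ * L := mul_le_mul_of_nonneg_left h1r hκ.le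
      _ = 1 * (κ * L) := by ring
  · refine le_trans (le_of_eq ?_) hq
    rw [box_card_real]
    push_cast
    ring

theorem lln_box {P : Measure (Cfg d)} [IsProbabilityMeasure P] {C : ℝ}
    {h : Cfg d → Site d → Site d → ℝ} (hG : ApG d P C h) {μ : Site d → ℝ}
    (hlim : ∀ x, Tendsto (fun n : ℕ => ∫ V, |-Real.log (h V 0 (sm n x)) / n - μ x| ∂P)
      atTop (nhds 0)) {Q : ℕ} (hQ : 1 ≤ Q) {κ q : ℝ} (hκ : 0 < κ) (hq : 0 < q) :
    ∀ᶠ L : ℕ in atTop, P (⋃ y ∈ box (0 : Site d) (Q + 2),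
      {V | κ < |-Real.log (h V 0 (sm (L / Q) y)) / (L / Q : ℕ) - μ y|}) ≤ ENNReal.ofReal q := by
  have hc : (0 : ℝ) < (box (0 : Site d) (Q + 2)).card := by
    rw [box_card_real]
    positivity
  have h1 : ∀ᶠ L : ℕ in atTop, ∀ y ∈ box (0 : Site d) (Q + 2),
      P {V | κ < |-Real.log (h V 0 (sm (L / Q) y)) / (L / Q : ℕ) - μ y|} ≤
        ENNReal.ofReal (q / (box (0 : Site d) (Q + 2)).card) := by
    rw [Filter.eventually_all_finset]
    intro y _
    exact (Nat.tendsto_div_const_atTop (show Q ≠ 0 by omega)).eventually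
      (lln_pt hG (hlim y) hκ (by positivity))
  filter_upwards [h1] with L hL
  apply union_le (q := q / (box (0 : Site d) (Q + 2)).card) _ _ _ hL
  rw [mul_div_cancel₀ _ hc.ne']

theorem lln_one {P : Measure (Cfg d)} [IsProbabilityMeasure P] {C : ℝ}
    {h : Cfg d → Site d → Site d → ℝ} (hG : ApG d P C h) {μ : Site d → ℝ}
    (hlim : ∀ x, Tendsto (fun n : ℕ => ∫ V, |-Real.log (h V 0 (sm n x)) / n - μ x| ∂P)
      atTop (nhds 0)) {R : ℕ} (hR : 1 ≤ R) (x₀ : Site d) {κ q : ℝ} (hκ : 0 < κ) (hq : 0 < q) :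
    ∀ᶠ L : ℕ in atTop,
      P {V | κ < |-Real.log (h V 0 (sm (L / R + 1) x₀)) / (L / R + 1 : ℕ) - μ x₀|} ≤
        ENNReal.ofReal q := by
  have h1 : Tendsto (fun L : ℕ => L / R + 1) atTop atTop :=
    (tendsto_add_atTop_nat 1).comp (Nat.tendsto_div_const_atTop (show R ≠ 0 by omega))
  exact h1.eventually (lln_pt hG (hlim x₀) hκ hq)

end Pool.Agent.LE.H17B
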