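import Pool.Agent.Helper17_LE.GamP

/-!
# GAM, the probability of the typical realizations: the sum
-/

set_option autoImplicit false
set_option linter.unusedSectionVars false

open MeasureTheory ProbabilityTheory Function Filter

open scoped ENNReal BigOperators

noncomputable section

namespace Pool.Agent.LE.H17B

open Pool.Agent.Anderson Pool.Agent.Loc Pool.Agent.Mob Pool.Agent.Helper54.Bal Pool.Agent.LE
  Pool.Agent.LE.H96

variable {d : ℕ}

theorem gam_prob {σ E C : ℝ} (hσ : σ ≠ 0) (hC : 0 < C) {h : Cfg d → Site d → Site d → ℝ}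
    {μ : Site d → ℝ} (hG : ApG d (PP d (gl σ)) C h) (hCmp : CmpG d (PP d (gl σ)) E h)
    (hlim : ∀ x, Tendsto (fun n : ℕ => ∫ V, |-Real.log (h V 0 (sm n x)) / n - μ x| ∂(PP d (gl σ)))
      atTop (nhds 0)) {Q R : ℕ} (hQ : 1 ≤ Q) (hR : 1 ≤ R) (x₀ : Site d) {κ p : ℝ} (hκ : 0 < κ)
    (hp : 0 < p) (hq : (2 * ((Q : ℝ) + 2) + 1) ^ d * (C * (1 / (κ * Q)) ^ (4 * d)) ≤ p / 6) :
    ∀ᶠ L : ℕ in atTop, PP d (gl σ) {V | ¬ (Ae0 V E L (h V) ∧ Pr0 V E κ L Q R x₀ μ (h V))} ≤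
      ENNReal.ofReal p := by
  have hae : ∀ L, PP d (gl σ) {V | ¬ Ae0 V E L (h V)} = 0 := by
    intro L
    rw [← MeasureTheory.ae_iff]
    filter_upwards [hG.pos, hG.symm, hCmp.cmp1, hCmp.cmp2] with V h1 h2 h3 h4
    exact ⟨h1, h2, h3 0 L, h4 0 L⟩
  have hp6 : 0 < p / 6 := by positivity
  filter_upwards [up_box hG R hκ hp6, tri_box hC hG Q hκ hp6, grb_box (d := d) hσ E hκ hp6,
    lln_box hG hlim hQ hκ hp6, lln_one hG hlim hR x₀ hκ hp6,
    (Nat.tendsto_div_const_atTop (show Q ≠ 0 by omega)).eventually (eventually_ge_atTop 1)]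
    with L l1 l2 l3 l4 l5 l6
  have l7 := chn_box hC hG hQ l6 hκ hq
  have l8 := det_null (d := d) hσ E (box 0 L)
  have l9 := hae L
  set M1 := (⋃ z ∈ box (0 : Site d) (L + R) ×ˢ box (0 : Site d) (L + R),
      {V | Real.exp (κ * L) < h V z.1 z.2}) with hM1
  set M2 := (⋃ z ∈ box (0 : Site d) (L + 1) ×ˢ box (0 : Site d) (Q + 2),
      {V | Real.exp (κ * L) * h V 0 (sm (L / Q) z.2) <
        h V 0 z.1 * h V z.1 (sm (L / Q) z.2)}) with hM2
  set M3 := (⋃ z ∈ box (0 : Site d) L ×ˢ box (0 : Site d) L,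
      {V | Real.exp (κ * L) < |gr V (box 0 L) E z.1 z.2|}) with hM3
  set M4 := (⋃ y ∈ box (0 : Site d) (Q + 2),
      {V | κ < |-Real.log (h V 0 (sm (L / Q) y)) / (L / Q : ℕ) - μ y|}) with hM4
  set M5 := {V | κ < |-Real.log (h V 0 (sm (L / R + 1) x₀)) / (L / R + 1 : ℕ) - μ x₀|} with hM5
  set M6 := (⋃ y ∈ box (0 : Site d) (Q + 2), {V | ∃ u ∈ box (sm (L / Q) y) (L / Q),
      h V (sm (L / Q) y) u < Real.exp (-(κ * L))}) with hM6
  have hincl : {V | ¬ (Ae0 V E L (h V) ∧ Pr0 V E κ L Q R x₀ μ (h V))} ⊆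
      ({V | ¬ Ae0 V E L (h V)} ∪ {V | (RM V (box 0 L) E).det = 0}) ∪
        (M1 ∪ (M2 ∪ (M3 ∪ (M4 ∪ (M5 ∪ M6))))) := by
    intro V hV
    by_contra hcon
    simp only [Set.mem_union, not_or] at hcon
    obtain ⟨⟨c0, c00⟩, c1, c2, c3, c4, c5, c6⟩ := hcon
    apply hV
    rw [Set.mem_ofPred_eq, not_not] at c0
    refine ⟨c0, ⟨c00, fun x y => ?_, fun x hx y hy => ?_, fun u hu y hy => ?_,
      fun y hy u hu => ?_, fun y hy => ?_, ?_⟩⟩
    · by_cases hxy : x ∈ box (0 : Site d) L ∧ y ∈ box (0 : Site d) L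
      · by_contra h0
        rw [not_le] at h0
        apply c3
        rw [hM3]
        simp only [Set.mem_iUnion, exists_prop]
        exact ⟨(x, y), Finset.mem_product.2 hxy, h0⟩
      · unfold gr
        rw [dif_neg hxy, abs_zero]
        exact (Real.exp_pos _).le
    · by_contra h0
      rw [not_le] at h0
      apply c1
      rw [hM1]
      simp only [Set.mem_iUnion, exists_prop]
      exact ⟨(x, y), Finset.mem_product.2 ⟨hx, hy⟩, h0⟩
    · by_contra h0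
      rw [not_le] at h0
      apply c2
      rw [hM2]
      simp only [Set.mem_iUnion, exists_prop]
      exact ⟨(u, y), Finset.mem_product.2 ⟨hu, hy⟩, h0⟩
    · by_contra h0
      rw [not_le] at h0
      apply c6
      rw [hM6]
      simp only [Set.mem_iUnion, exists_prop]
      exact ⟨y, hy, u, hu, h0⟩
    · by_contra h0
      rw [not_le] at h0
      apply c4
      rw [hM4]
      simp only [Set.mem_iUnion, exists_prop]
      exact ⟨y, hy, h0⟩
    · by_contra h0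
      rw [not_le] at h0
      exact c5 h0
  refine (measure_mono hincl).trans ?_
  refine (measure_union_le _ _).trans ?_
  rw [measure_union_null l9 l8, zero_add]
  refine (measure_union_le _ _).trans ?_
  refine (add_le_add l1 ((measure_union_le _ _).trans (add_le_add l2 ((measure_union_le _ _).trans
    (add_le_add l3 ((measure_union_le _ _).trans (add_le_add l4 ((measure_union_le _ _).trans
      (add_le_add l5 l7))))))))).trans ?_
  rw [← ENNReal.ofReal_add (by positivity) (by positivity),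
    ← ENNReal.ofReal_add (by positivity) (by positivity),
    ← ENNReal.ofReal_add (by positivity) (by positivity),
    ← ENNReal.ofReal_add (by positivity) (by positivity),
    ← ENNReal.ofReal_add (by positivity) (by positivity)]
  apply ENNReal.ofReal_le_ofReal
  linarith

/-! ### the choice of `Q` -/

theorem exists_Q (hd : 1 ≤ d) {κ q C : ℝ} (hκ : 0 < κ) (hq : 0 < q) (hC : 0 < C) (γ : ℝ) :
    ∃ Q : ℕ, 1 ≤ Q ∧ γ ≤ κ * Q ∧
      (2 * ((Q : ℝ) + 2) + 1) ^ d * (C * (1 / (κ * Q)) ^ (4 * d)) ≤ q := by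
  obtain ⟨Q, hQ⟩ := exists_nat_gt (max 1 (max (γ / κ) (7 ^ d * C / κ ^ (4 * d) / q)))
  have h1 : (1 : ℝ) < Q := (le_max_left _ _).trans_lt hQ
  have h2 : γ / κ < Q := ((le_max_left _ _).trans (le_max_right _ _)).trans_lt hQ
  have h3 : 7 ^ d * C / κ ^ (4 * d) / q < Q :=
    ((le_max_right _ _).trans (le_max_right _ _)).trans_lt hQ
  refine ⟨Q, by exact_mod_cast h1.le, ?_, ?_⟩
  · rw [div_lt_iff₀ hκ] at h2
    linarith
  · have hQ0 : (0 : ℝ) < Q := by linarith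
    have e1 : (2 * ((Q : ℝ) + 2) + 1) ^ d ≤ (7 * Q) ^ d := by
      apply pow_le_pow_left₀ (by positivity)
      linarith
    have e2 : (Q : ℝ) ^ (d + 1) ≤ Q ^ (4 * d) := pow_le_pow_right₀ h1.le (by omega)
    calc (2 * ((Q : ℝ) + 2) + 1) ^ d * (C * (1 / (κ * Q)) ^ (4 * d))
        ≤ (7 * Q) ^ d * (C * (1 / (κ * Q)) ^ (4 * d)) :=
          mul_le_mul_of_nonneg_right e1 (by positivity)
      _ = 7 ^ d * C / κ ^ (4 * d) * (Q ^ d / Q ^ (4 * d)) := by
          rw [mul_pow, div_pow, one_pow, mul_pow]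
          field_simp
      _ ≤ 7 ^ d * C / κ ^ (4 * d) * (1 / Q) := by
          apply mul_le_mul_of_nonneg_left _ (by positivity)
          rw [div_le_div_iff₀ (by positivity) hQ0, one_mul, ← pow_succ]
          exact e2
      _ ≤ q := by
          rw [mul_one_div, div_le_iff₀ hQ0]
          rw [div_lt_iff₀ hq] at h3
          linarith

/-! ### the infimum -/

theorem eq_zero_of_sd {x : Site d} (h : sd 0 x = 0) : x = 0 := by
  have h1 := sd_le_iff.1 h.le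
  funext i
  have h2 := h1 i
  simp only [Pi.zero_apply, zero_sub, abs_neg] at h2 ⊢
  have h3 : |x i| ≤ 0 := by exact_mod_cast h2
  exact abs_eq_zero.1 (le_antisymm h3 (abs_nonneg _))

theorem exists_gam (hd : 1 ≤ d) {μ : Site d → ℝ} (hμ : ∀ x, 0 ≤ μ x) :
    ∃ γ : ℝ, 0 ≤ γ ∧ (∀ x, γ * sd 0 x ≤ μ x) ∧
      ∀ ε : ℝ, 0 < ε → ∃ x : Site d, x ≠ 0 ∧ μ x ≤ (γ + ε) * sd 0 x := by
  have hsd : ∀ x : Site d, x ≠ 0 → 0 < sd 0 x := by
    intro x hx
    rcases Nat.eq_zero_or_pos (sd 0 x) with h | h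
    · exact absurd (eq_zero_of_sd h) hx
    · exact h
  set S : Set ℝ := {t | ∃ x : Site d, x ≠ 0 ∧ t = μ x / sd 0 x} with hS
  have hne : S.Nonempty := by
    refine ⟨_, fun _ => 1, ?_, rfl⟩
    intro h
    have := congrFun h ⟨0, by omega⟩
    simp at this
  have hbd : ∀ t ∈ S, 0 ≤ t := by
    rintro t ⟨x, _, rfl⟩
    exact div_nonneg (hμ x) (Nat.cast_nonneg _)
  have hbdd : BddBelow S := ⟨0, hbd⟩
  refine ⟨sInf S, le_csInf hne hbd, fun x => ?_, fun ε hε => ?_⟩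
  · by_cases hx : x = 0
    · subst hx
      rw [sd_self, Nat.cast_zero, mul_zero]
      exact hμ 0
    · have h1 : (0 : ℝ) < sd 0 x := by exact_mod_cast hsd x hx
      rw [← le_div_iff₀ h1]
      exact csInf_le hbdd ⟨x, hx, rfl⟩
  · obtain ⟨t, ⟨x, hx, rfl⟩, ht⟩ := exists_lt_of_csInf_lt hne (show sInf S < sInf S + ε by linarith)
    refine ⟨x, hx, ?_⟩
    have h1 : (0 : ℝ) < sd 0 x := by exact_mod_cast hsd x hx
    rw [div_lt_iff₀ h1] at ht
    exact ht.le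

/-! ### the result -/

theorem tendsto_one {Ω : Type*} [MeasurableSpace Ω] (P : Measure Ω) [IsProbabilityMeasure P]
    (A : ℕ → Set Ω) (h : ∀ p : ℝ, 0 < p → ∀ᶠ n in atTop, P (A n)ᶜ ≤ ENNReal.ofReal p) :
    Tendsto (fun n => P (A n)) atTop (nhds 1) := by
  have h0 : Tendsto (fun n => P (A n)ᶜ) atTop (nhds 0) := by
    rw [ENNReal.tendsto_nhds_zero]
    intro ε hε
    rcases eq_or_ne ε ⊤ with rfl | hε'
    · exact Eventually.of_forall fun _ => le_top
    · filter_upwards [h ε.toReal (ENNReal.toReal_pos hε.ne' hε')] with n hn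
      rwa [ENNReal.ofReal_toReal hε'] at hn
  have h1 : Tendsto (fun n => 1 - P (A n)ᶜ) atTop (nhds (1 - 0)) :=
    ENNReal.Tendsto.sub tendsto_const_nhds h0 (Or.inl ENNReal.one_ne_top)
  rw [tsub_zero] at h1
  refine tendsto_of_tendsto_of_tendsto_of_le_of_le h1 tendsto_const_nhds (fun n => ?_)
    (fun n => prob_le_one)
  rw [tsub_le_iff_right]
  calc (1 : ℝ≥0∞) = P Set.univ := measure_univ.symm
    _ = P (A n ∪ (A n)ᶜ) := by rw [Set.union_compl_self]
    _ ≤ P (A n) + P (A n)ᶜ := measure_union_le _ _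

theorem lin_ev (a b : ℝ) {κ : ℝ} (hκ : 0 < κ) : ∀ᶠ L : ℕ in atTop, a + b ≤ κ * L := by
  have h1 : Tendsto (fun L : ℕ => κ * (L : ℝ)) atTop atTop :=
    tendsto_natCast_atTop_atTop.const_mul_atTop hκ
  exact h1.eventually (eventually_ge_atTop _)

theorem poly_ev (d : ℕ) {κ : ℝ} (hκ : 0 < κ) :
    ∀ᶠ L : ℕ in atTop, 1 + 2 * d * (2 * (L : ℝ) + 1) ^ d ≤ Real.exp (κ * L) := by
  filter_upwards [poly_small d (μ := κ) hκ 1 (1 + 2 * d) one_pos] with L hL
  have h1 : (1 : ℝ) ≤ (2 * (L : ℝ) + 1) ^ d := one_le_pow₀ (by linarith [Nat.cast_nonneg (α := ℝ) L])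
  have h2 : (1 + 2 * (d : ℝ)) * (2 * (L : ℝ) + 1) ^ d ≤ Real.exp (κ * L) := by
    calc (1 + 2 * (d : ℝ)) * (2 * (L : ℝ) + 1) ^ d
        = (1 + 2 * (d : ℝ)) * (2 * (L : ℝ) + 1) ^ d * Real.exp (-κ * L) * Real.exp (κ * L) := by
          rw [mul_assoc, ← Real.exp_add]
          simp
      _ ≤ 1 * Real.exp (κ * L) := mul_le_mul_of_nonneg_right hL (Real.exp_pos _).le
      _ = _ := one_mul _
  linarith

theorem gam (mup : MupStmt) : GamStmt := by
  intro d σ E C h μ hd hσ hC hG hCmp hlim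
  obtain ⟨hμ0, -⟩ := mup d (PP d (gl σ)) C h μ hC (shiftInv_PP (gl σ)) hG hlim
  obtain ⟨γ, hγ, hγμ, hγε⟩ := exists_gam hd hμ0
  refine ⟨γ, hγ, hγμ, hγε, fun ε hε => ?_⟩
  set κ : ℝ := ε / 8 with hκd
  have hκ : 0 < κ := by positivity
  obtain ⟨x₀, hx₀, hμx₀⟩ := hγε κ hκ
  obtain ⟨R, hR⟩ : ∃ R, R = sd 0 x₀ := ⟨_, rfl⟩
  have hR1 : 1 ≤ R := by
    rw [hR]
    rcases Nat.eq_zero_or_pos (sd 0 x₀) with h | h
    · exact absurd (eq_zero_of_sd h) hx₀
    · exact h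
  rw [← hR] at hμx₀
  apply tendsto_one
  intro p hp
  obtain ⟨Q, hQ1, hQγ, hQp⟩ := exists_Q hd hκ (show (0 : ℝ) < p / 6 by positivity) hC γ
  filter_upwards [gam_prob hσ hC hG hCmp hlim hQ1 hR1 x₀ hκ hp hQp,
    (Nat.tendsto_div_const_atTop (show Q ≠ 0 by omega)).eventually (eventually_ge_atTop (Q + 1)),
    lin_ev (γ * Q) 0 hκ, poly_ev d hκ, lin_ev ((γ + κ) * R) κ hκ] with L l1 l2 l3 l4 l5
  refine (measure_mono ?_).trans l1
  intro V hV
  rw [Set.mem_compl_iff] at hV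
  rw [Set.mem_ofPred_eq]
  intro hc
  apply hV
  have h1 := gam_det hc.1 hc.2 hκ hγ hQ1 hQγ l2 (by linarith) l4 hR.symm hR1 l5 hγμ hμx₀
  have h8 : 8 * κ = ε := by rw [hκd]; ring
  rw [h8] at h1
  exact ⟨hc.2.det, h1⟩

end Pool.Agent.LE.H17B
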