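import Pool.Agent.LE.StmtsA

/-!
# Row ZER: the zero-one law, negative part
-/

set_option autoImplicit false

open MeasureTheory ProbabilityTheory Function

open scoped ENNReal BigOperators

noncomputable section

namespace Pool.Agent.LE.H17

open Pool.Agent.Anderson Pool.Agent.Loc Pool.Agent.Mob Pool.Agent.Helper54.Bal Pool.Agent.LE

/-- ZER -/
theorem zer (con : ConStmt) (msa : MsaStmt) : ZerStmt := by
  intro d C₀ σ E κ δ hd hC hσ hE hκ hδ L₁
  by_contra h
  push Not at h
  obtain ⟨p, hp, L₀, hmsa⟩ := msa d C₀ σ E (κ / 2) hC hσ (by positivity)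
  obtain ⟨L, hL, hP⟩ := con d σ E κ δ p hd hσ hκ hδ hp ⟨L₁, h⟩ L₀
  exact hE (hmsa L hL hP)

end Pool.Agent.LE.H17
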